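import Mathlib
import Pool.Agent.Q96.GdInst

/-!
# MP_e1a21f_an, Q1 (answer: the assertion is false)

For stepsize `h = 1` the critical extrapolation factor of the gradient norm is not `1 + Θ(1/N)`: for
every `e > 0` and all large `N` the worst-case gradient norm at `c = 1 + e/N` exceeds
`L D / (N h c + 1)`.
-/

set_option autoImplicit false
set_option linter.unusedSectionVars false

open Filter Topology Finset
open scoped RealInnerProductSpace ENNReal

namespace Pool.Agent.Results.MP_e1a21f_an.CriticalFactor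

/-- gradient descent with stepsize `h / L` -/
noncomputable def gd {m : ℕ} (L h : ℝ) (f : EuclideanSpace ℝ (Fin m) → ℝ)
    (x0 : EuclideanSpace ℝ (Fin m)) : ℕ → EuclideanSpace ℝ (Fin m)
  | 0 => x0
  | k + 1 => gd L h f x0 k - (h / L) • gradient f (gd L h f x0 k)

/-- the reported point `x_σ = x_0 + c (x_N - x_0)` -/
noncomputable def xsig {m : ℕ} (L h : ℝ) (f : EuclideanSpace ℝ (Fin m) → ℝ)
    (x0 : EuclideanSpace ℝ (Fin m)) (N : ℕ) (c : ℝ) : EuclideanSpace ℝ (Fin m) :=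
  x0 + c • (gd L h f x0 N - x0)

/-- problem instances -/
structure IsInstance {m : ℕ} (L D : ℝ) (f : EuclideanSpace ℝ (Fin m) → ℝ)
    (x0 : EuclideanSpace ℝ (Fin m)) : Prop where
  dim : 1 ≤ m
  convex : ConvexOn ℝ Set.univ f
  diff : Differentiable ℝ f
  lip : ∀ x y, ‖gradient f x - gradient f y‖ ≤ L * ‖x - y‖
  min : ∃ xs, (∀ y, f xs ≤ f y) ∧ ‖x0 - xs‖ ≤ D

/-- the worst-case gradient norm `p_grad(c)` -/
noncomputable def pgrad (L D h : ℝ) (N : ℕ) (c : ℝ) : ℝ≥0∞ :=
  ⨆ (m : ℕ) (f : EuclideanSpace ℝ (Fin m) → ℝ) (x0 : EuclideanSpace ℝ (Fin m))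
    (_ : IsInstance L D f x0), ENNReal.ofReal ‖gradient f (xsig L h f x0 N c)‖

/-- the critical factor `c_crit,grad(N, h)` -/
noncomputable def ccrit (L D h : ℝ) (N : ℕ) : EReal :=
  sSup {r : EReal | ∃ c : ℝ, 1 ≤ c ∧
    pgrad L D h N c = ENNReal.ofReal (L * D / (N * h * c + 1)) ∧ r = (c : EReal)}

/-- the assertion of Q1 -/
def Claim (L D : ℝ) : Prop :=
  ∀ h : ℝ, 0 < h → h ≤ 1 →
    (∀ N : ℕ, 1 ≤ N → ∀ c : ℝ, 1 ≤ c → (c : EReal) ≤ ccrit L D h N →
      pgrad L D h N c = ENNReal.ofReal (L * D / (N * h * c + 1))) ∧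
    ∃ a b : ℝ, 0 < a ∧ a ≤ b ∧ ∀ N : ℕ, 1 ≤ N →
      ((1 + a / N : ℝ) : EReal) ≤ ccrit L D h N ∧ ccrit L D h N ≤ ((1 + b / N : ℝ) : EReal)

open Q96.GdTraj Q96.GdInst

/-- the plane -/
abbrev E2 := EuclideanSpace ℝ (Fin 2)

/-- vectors of the plane -/
noncomputable def vec (x y : ℝ) : E2 := !₂[x, y]

lemma inner_vec (a b c d : ℝ) : ⟪vec a b, vec c d⟫ = a * c + b * d := by
  simp only [vec, PiLp.inner_apply, Fin.sum_univ_two]
  simp
  ring

lemma vec_add (a b c d : ℝ) : vec a b + vec c d = vec (a + c) (b + d) := by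
  ext i
  fin_cases i <;> simp [vec]

lemma vec_smul (r a b : ℝ) : r • vec a b = vec (r * a) (r * b) := by
  ext i
  fin_cases i <;> simp [vec]

lemma vec_sum (s : Finset ℕ) (u v : ℕ → ℝ) :
    ∑ i ∈ s, vec (u i) (v i) = vec (∑ i ∈ s, u i) (∑ i ∈ s, v i) := by
  classical
  induction s using Finset.induction_on with
  | empty =>
    ext i
    fin_cases i <;> simp [vec]
  | insert a s ha ih => rw [Finset.sum_insert ha, Finset.sum_insert ha, Finset.sum_insert ha, ih,
      vec_add]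

lemma norm_vec_sq (a b : ℝ) : ‖vec a b‖ ^ 2 = a ^ 2 + b ^ 2 := by
  rw [← real_inner_self_eq_norm_sq, inner_vec]
  ring

/-- the instance for `L = 1`, minimizer `0` -/
theorem exists_instance (P : Par) :
    ∃ (f : E2 → ℝ) (G : E2 → E2) (X : ℕ → E2), ConvexOn ℝ Set.univ f ∧
      (∀ x, HasGradientAt f (G x) x) ∧ (∀ x x', ‖G x - G x'‖ ≤ ‖x - x'‖) ∧ (∀ x, f 0 ≤ f x) ∧
      (∀ k, k < P.N → X (k + 1) = X k - G (X k)) ∧
      ‖G (X 0 + (1 + P.e / P.N) • (X P.N - X 0))‖ = 1 ∧ 0 < ‖X 0‖ ∧ ‖X 0‖ < P.N + P.e + 1 := by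
  set g : ℕ → E2 := fun j => vec (1 + P.c j) (P.a j) with hg
  set p : E2 := vec 1 0 with hp
  set y0 : E2 := vec (1 + P.e * (1 + P.cb)) (P.e * P.ab) with hy0
  have hN := P.N_pos
  have hsum1 : ∑ j ∈ range P.N, (1 + P.c j) = P.N * (1 + P.cb) := by
    rw [Finset.sum_add_distrib, Finset.sum_const, Finset.card_range, nsmul_eq_mul]
    unfold Par.cb
    field_simp
  have hsum2 : ∑ j ∈ range P.N, P.a j = P.N * P.ab := by
    unfold Par.ab
    field_simp
  have hgg : ∀ k i, ⟪g k, g i⟫ - ‖g i‖ ^ 2 =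
      (P.c k - P.c i) * (1 + P.c i) + (P.a k - P.a i) * P.a i := by
    intro k i
    simp only [hg]
    rw [inner_vec, norm_vec_sq]
    ring
  have hcb := P.cb_lower
  have hcb' := P.cb_nonpos
  have hw := P.w_le
  have he := P.he
  obtain ⟨f, G, hc, hG, hl, hmin, hGp, hGY⟩ := exists_fun P.N p y0 g
    (by
      intro j i hji hi
      simp only [hg]
      rw [inner_vec, norm_vec_sq]
      exact P.h1b hji hi.le)
    (by
      intro j k hjk hk
      have h1 := sum_Ico_nonneg hjk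
      calc (0 : ℝ) ≤ P.ε ^ 2 / 2 * ∑ i ∈ Ico j k, (6 * (H k - H i) - (H k - H i) ^ 2) :=
            mul_nonneg (by positivity) h1
        _ = ∑ i ∈ Ico j k, P.ε ^ 2 * (6 * (H k - H i) - (H k - H i) ^ 2) / 2 := by
            rw [Finset.mul_sum]
            exact Finset.sum_congr rfl fun i _ => by ring
        _ ≤ _ := by
            apply Finset.sum_le_sum
            intro i hi
            rw [hgg]
            have hi' := Finset.mem_Ico.1 hi
            exact P.T_lower hi'.2.le (hi'.2.trans hk).le)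
    (by
      intro k hk
      have h1 := P.h2 hk
      have h2 : ∑ i ∈ range k, (⟪g k, g i⟫ - ‖g i‖ ^ 2) =
          ∑ i ∈ range k, ((P.c k - P.c i) * (1 + P.c i) + (P.a k - P.a i) * P.a i) :=
        Finset.sum_congr rfl fun i _ => hgg k i
      rw [h2, hp, hy0, inner_vec]
      simp only [hg]
      rw [inner_vec]
      linarith)
    (by
      intro i _
      rw [hp]
      simp only [hg]
      rw [inner_vec, norm_vec_sq]
      have := P.h3 i
      linarith)
    (by
      rw [hp, hy0, inner_vec]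
      have h1 : 0 ≤ 1 + P.cb := by linarith
      have h2 : 0 ≤ P.e * (1 + P.cb) := mul_nonneg he.le h1
      linarith)
  have hYN : Y y0 g P.N = vec (1 + (P.N + P.e) * (1 + P.cb)) ((P.N + P.e) * P.ab) := by
    unfold Y
    simp only [hg]
    rw [vec_sum, hsum1, hsum2, hy0, vec_add]
    congr 1 <;> ring
  have hY0 : Y y0 g 0 = y0 := by simp [Y]
  refine ⟨f, G, fun k => Y y0 g (P.N - k), hc, hG, hl, hmin, ?_, ?_, ?_, ?_⟩
  · intro k hk
    have h1 : P.N - k = (P.N - (k + 1)) + 1 := by omega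
    have h2 : P.N - (k + 1) < P.N := by omega
    change Y y0 g (P.N - (k + 1)) = Y y0 g (P.N - k) - G (Y y0 g (P.N - k))
    rw [h1, hGY _ h2]
    unfold Y
    rw [Finset.sum_range_succ]
    abel
  · have h1 : Y y0 g (P.N - 0) + (1 + P.e / P.N) • (Y y0 g (P.N - P.N) - Y y0 g (P.N - 0)) = p := by
      rw [Nat.sub_zero, Nat.sub_self, hY0, hYN, hy0, hp]
      have h2 : vec (1 + P.e * (1 + P.cb)) (P.e * P.ab) -
          vec (1 + (P.N + P.e) * (1 + P.cb)) ((P.N + P.e) * P.ab) =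
          vec (-(P.N * (1 + P.cb))) (-(P.N * P.ab)) := by
        rw [sub_eq_iff_eq_add, vec_add]
        congr 1 <;> ring
      rw [h2, vec_smul, vec_add]
      congr 1 <;> (field_simp; ring)
    simp only [h1, hGp]
    have h2 : ‖p‖ ^ 2 = 1 := by
      rw [hp, norm_vec_sq]
      norm_num
    nlinarith [norm_nonneg p]
  · change 0 < ‖Y y0 g (P.N - 0)‖
    rw [Nat.sub_zero, hYN]
    have h1 : 0 < ‖vec (1 + (P.N + P.e) * (1 + P.cb)) ((P.N + P.e) * P.ab)‖ ^ 2 := by
      rw [norm_vec_sq]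
      have h2 : 0 ≤ (P.N + P.e) * (1 + P.cb) := mul_nonneg (by linarith) (by linarith)
      nlinarith [sq_nonneg ((P.N + P.e) * P.ab)]
    by_contra h
    have h3 : ‖vec (1 + (P.N + P.e) * (1 + P.cb)) ((P.N + P.e) * P.ab)‖ = 0 :=
      le_antisymm (not_lt.1 h) (norm_nonneg _)
    rw [h3] at h1
    norm_num at h1
  · change ‖Y y0 g (P.N - 0)‖ < _
    rw [Nat.sub_zero, hYN]
    have hM : 0 < P.N + P.e := by linarith
    have h1 : ‖vec (1 + (P.N + P.e) * (1 + P.cb)) ((P.N + P.e) * P.ab)‖ ^ 2 <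
        (P.N + P.e + 1) ^ 2 := by
      rw [norm_vec_sq]
      have h2 := P.goal
      have h3 : (P.N + P.e + 1) ^ 2 - ((1 + (P.N + P.e) * (1 + P.cb)) ^ 2 +
          ((P.N + P.e) * P.ab) ^ 2) = (P.N + P.e) * (-((P.N + P.e) *
            (2 * P.cb + P.cb ^ 2 + P.ab ^ 2)) - 2 * P.cb) := by ring
      have h4 : 0 < -((P.N + P.e) * (2 * P.cb + P.cb ^ 2 + P.ab ^ 2)) - 2 * P.cb := by
        have := mul_neg_of_pos_of_neg hM h2
        linarith
      have h5 := mul_pos hM h4
      linarith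
    exact lt_of_pow_lt_pow_left₀ 2 (by positivity) h1

/-- scaling -/
lemma scaled_gradient {f : E2 → ℝ} {G : E2 → E2} (hG : ∀ x, HasGradientAt f (G x) x) {L s : ℝ}
    (hs : 0 < s) (x : E2) :
    HasGradientAt (fun z => L * s ^ 2 * f (s⁻¹ • z)) ((L * s) • G (s⁻¹ • x)) x := by
  rw [hasGradientAt_iff_hasFDerivAt]
  have h1 : HasFDerivAt (fun z : E2 => s⁻¹ • z) (s⁻¹ • ContinuousLinearMap.id ℝ E2) x :=
    (hasFDerivAt_id x).const_smul s⁻¹
  have h2 := (hG (s⁻¹ • x)).hasFDerivAt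
  have h3 := (h2.comp x h1).const_mul (L * s ^ 2)
  refine h3.congr_fderiv ?_
  ext z
  simp only [smul_apply, ContinuousLinearMap.comp_apply,
    ContinuousLinearMap.id_apply, InnerProductSpace.toDual_apply_apply, smul_eq_mul,
    inner_smul_left, inner_smul_right]
  simp
  field_simp

/-- violation for a fixed `e ∈ (0, 1]` -/
theorem violation {L D : ℝ} (hL : 0 < L) (hD : 0 < D) (P : Par) :
    ENNReal.ofReal (L * D / (P.N * 1 * (1 + P.e / P.N) + 1)) <
      pgrad L D 1 P.N (1 + P.e / P.N) := by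
  obtain ⟨f, G, X, hc, hG, hl, hmin, hX, hnorm, hX0, hXlt⟩ := exists_instance P
  have hN := P.N_pos
  have he := P.he
  set s : ℝ := D / ‖X 0‖ with hs
  have hspos : 0 < s := by positivity
  set F : E2 → ℝ := fun z => L * s ^ 2 * f (s⁻¹ • z) with hF
  have hFG : ∀ x, HasGradientAt F ((L * s) • G (s⁻¹ • x)) x := fun x => scaled_gradient hG hspos x
  have hgr : ∀ x, gradient F x = (L * s) • G (s⁻¹ • x) := fun x => (hFG x).gradient
  have hinst : IsInstance L D F (s • X 0) := by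
    refine ⟨by norm_num, ?_, ?_, ?_, ?_⟩
    · have h1 : ConvexOn ℝ Set.univ fun z : E2 => f (s⁻¹ • z) := by
        refine ⟨convex_univ, fun x _ y _ a b ha hb hab => ?_⟩
        have := hc.2 (Set.mem_univ (s⁻¹ • x)) (Set.mem_univ (s⁻¹ • y)) ha hb hab
        change f (s⁻¹ • (a • x + b • y)) ≤ a • f (s⁻¹ • x) + b • f (s⁻¹ • y)
        rw [smul_add, smul_comm s⁻¹ a x, smul_comm s⁻¹ b y]
        exact this
      exact h1.smul (by positivity : 0 ≤ L * s ^ 2)
    · exact fun x => (hFG x).hasFDerivAt.differentiableAt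
    · intro x y
      rw [hgr, hgr, ← smul_sub, norm_smul, Real.norm_eq_abs, abs_of_pos (by positivity)]
      have h1 := hl (s⁻¹ • x) (s⁻¹ • y)
      rw [← smul_sub, norm_smul, Real.norm_eq_abs, abs_of_pos (by positivity)] at h1
      calc L * s * ‖G (s⁻¹ • x) - G (s⁻¹ • y)‖ ≤ L * s * (s⁻¹ * ‖x - y‖) :=
            mul_le_mul_of_nonneg_left h1 (by positivity)
        _ = L * ‖x - y‖ := by field_simp
    · refine ⟨0, fun y => ?_, ?_⟩
      · simp only [hF]
        rw [smul_zero]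
        exact mul_le_mul_of_nonneg_left (hmin _) (by positivity)
      · rw [sub_zero, norm_smul, Real.norm_eq_abs, abs_of_pos hspos, hs, div_mul_cancel₀ _ hX0.ne']
  have hgd : ∀ k, k ≤ P.N → gd L 1 F (s • X 0) k = s • X k := by
    intro k
    induction k with
    | zero => intro _; rfl
    | succ k ih =>
      intro hk
      have h1 := ih (by omega)
      change gd L 1 F (s • X 0) k - (1 / L) • gradient F (gd L 1 F (s • X 0) k) = _
      rw [h1, hgr, smul_smul s⁻¹ s, inv_mul_cancel₀ hspos.ne', one_smul, hX k (by omega),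
        smul_sub, smul_smul]
      congr 2
      field_simp
  have hxs : gradient F (xsig L 1 F (s • X 0) P.N (1 + P.e / P.N)) =
      (L * s) • G (X 0 + (1 + P.e / P.N) • (X P.N - X 0)) := by
    unfold xsig
    rw [hgr, hgd P.N le_rfl]
    congr 2
    rw [← smul_sub, smul_comm _ s, ← smul_add, smul_smul, inv_mul_cancel₀ hspos.ne', one_smul]
  have hval : ‖gradient F (xsig L 1 F (s • X 0) P.N (1 + P.e / P.N))‖ = L * D / ‖X 0‖ := by
    rw [hxs, norm_smul, hnorm, mul_one, Real.norm_eq_abs, abs_of_pos (by positivity), hs]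
    ring
  have hle : ENNReal.ofReal (L * D / ‖X 0‖) ≤ pgrad L D 1 P.N (1 + P.e / P.N) := by
    unfold pgrad
    rw [← hval]
    exact le_iSup_of_le 2 (le_iSup_of_le F (le_iSup_of_le (s • X 0) (le_iSup_of_le hinst le_rfl)))
  refine lt_of_lt_of_le ?_ hle
  rw [ENNReal.ofReal_lt_ofReal_iff (by positivity)]
  have h1 : (P.N : ℝ) * 1 * (1 + P.e / P.N) + 1 = P.N + P.e + 1 := by
    field_simp
  rw [h1]
  exact div_lt_div_of_pos_left (by positivity) hX0 hXlt

lemma H_tendsto : Tendsto H atTop atTop := by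
  have h : H = fun n : ℕ => ∑ i ∈ range n, (1 / ((i : ℝ) + 1)) := rfl
  rw [h]
  exact Real.tendsto_sum_range_one_div_nat_succ_atTop

/-- **Answer to Q1: the assertion is false.** For `h = 1`, every `e ∈ (0, 1]` and all sufficiently
large `N`, the worst-case gradient norm at `c = 1 + e / N` is larger than `L D / (N h c + 1)`. Hence
the assertion of Q1 fails, for all `L, D > 0`. -/
theorem result (L D : ℝ) (hL : 0 < L) (hD : 0 < D) :
    (∀ e : ℝ, 0 < e → e ≤ 1 → ∃ N0 : ℕ, ∀ N : ℕ, N0 ≤ N →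
      ENNReal.ofReal (L * D / (N * 1 * (1 + e / N) + 1)) < pgrad L D 1 N (1 + e / N)) ∧
    ¬ Claim L D := by
  have hmain : ∀ e : ℝ, 0 < e → e ≤ 1 → ∃ N0 : ℕ, ∀ N : ℕ, N0 ≤ N →
      ENNReal.ofReal (L * D / (N * 1 * (1 + e / N) + 1)) < pgrad L D 1 N (1 + e / N) := by
    intro e he he1
    obtain ⟨N0, hN0⟩ := (H_tendsto.eventually (eventually_ge_atTop (16 / e ^ 2 + 1))).exists_forall_of_atTop
    refine ⟨max N0 1, fun N hN => ?_⟩
    have h1 := hN0 N ((le_max_left _ _).trans hN)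
    have h2 : 1 ≤ N := (le_max_right _ _).trans hN
    have h3 : 16 ≤ e ^ 2 * (H N - 1) := by
      have h4 : 16 / e ^ 2 ≤ H N - 1 := by linarith
      rw [div_le_iff₀ (by positivity)] at h4
      linarith
    have h5 : 0 < H N - 1 := by
      by_contra h
      have : e ^ 2 * (H N - 1) ≤ 0 := mul_nonpos_of_nonneg_of_nonpos (by positivity) (not_lt.1 h)
      linarith
    exact violation hL hD
      { e := e, w := e / 8, ε := e / 8 / (H N - 1), hb := H N - 1, N := N, hN := by omega,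
        he := he, he1 := he1, hw := rfl, hhb := rfl, hε := by field_simp, hbig := h3 }
  refine ⟨hmain, fun hclaim => ?_⟩
  obtain ⟨h1, a, b, ha, hab, h2⟩ := hclaim 1 one_pos le_rfl
  have he : 0 < min a 1 := lt_min ha one_pos
  obtain ⟨N0, hN0⟩ := hmain (min a 1) he (min_le_right _ _)
  have h3 := hN0 (max N0 1) (le_max_left _ _)
  have hN1 : 1 ≤ max N0 1 := le_max_right _ _
  have hN1' : (0 : ℝ) < (max N0 1 : ℕ) := by exact_mod_cast hN1
  have h4 : (((1 + min a 1 / (max N0 1 : ℕ) : ℝ)) : EReal) ≤ ccrit L D 1 (max N0 1) := by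
    refine le_trans ?_ (h2 (max N0 1) hN1).1
    rw [EReal.coe_le_coe_iff]
    have : min a 1 / ((max N0 1 : ℕ) : ℝ) ≤ a / ((max N0 1 : ℕ) : ℝ) :=
      div_le_div_of_nonneg_right (min_le_left _ _) hN1'.le
    linarith
  have h5 := h1 (max N0 1) hN1 (1 + min a 1 / (max N0 1 : ℕ))
    (by have : 0 < min a 1 / ((max N0 1 : ℕ) : ℝ) := by positivity
        linarith) h4
  rw [h5] at h3
  exact lt_irrefl _ h3

end Pool.Agent.Results.MP_e1a21f_an.CriticalFactor
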